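import Mathlib
import Pool.Agent.Q193.PTC.Cont

/-!
# Positive Toeplitz completions do not pass to matrix amplifications (MP_a15892_an, Q1)

The C*-algebra `A = C(ℕ ∪ {∞})` of convergent sequences has the positive Toeplitz completion
property, and `M^{m×m}(A)` does not have it for any `m ≥ 2`.

Counterexample: `k = 2`, `n = 3`, `a₀ = diag(1, t², 0, …)`, `a₁ = t E₀₁ + u E₁₀` with
`t(n) = 1/(n+1)`, `u(n) = (-1)ⁿ/(n+1)`. At the point `n` every positive completion has
`(a₂)₀₀ = u(n)/t(n) = (-1)ⁿ`, which has no limit.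
-/

set_option autoImplicit false

open Matrix Finset Filter Topology
open scoped ComplexOrder

namespace Pool.Agent.Results.MP_a15892_an.AmplificationFails

/-- Positive elements of a C*-algebra: the elements of the form `z* z`. -/
def IsPositive {B : Type*} [NonUnitalRing B] [StarRing B] (y : B) : Prop :=
  ∃ z : B, y = star z * z

/-- The Toeplitz matrix `[a_{i-j}]_{i,j=0}^{n-1}` in `M^{n×n}(A)`. -/
def toeplitz {A : Type*} (a : ℤ → A) (n : ℕ) : CStarMatrix (Fin n) (Fin n) A :=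
  CStarMatrix.ofMatrix (Matrix.of fun i j => a ((i : ℤ) - (j : ℤ)))

/-- The positive Toeplitz completion class: for `0 < k < n`, all data `a_l`, `|l| ≤ k - 1`, with
`[a_{i-j}]` positive in `M^{k×k}(A)` extend to a positive Toeplitz matrix in `M^{n×n}(A)`. -/
def PTC (A : Type*) [NonUnitalRing A] [StarRing A] : Prop :=
  ∀ k n : ℕ, 0 < k → k < n → ∀ a : ℤ → A, IsPositive (toeplitz a k) →
    ∃ y : ℤ → A, (∀ l : ℤ, |l| ≤ (k : ℤ) - 1 → y l = a l) ∧ IsPositive (toeplitz y n)

open Pool.Agent.Q193.PTC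

theorem ptc_commutative : PTC C(OnePoint ℕ, ℂ) := by
  intro k n hk hkn a ⟨Z, hZ⟩
  have hZ' : ∀ i j : Fin k, a ((i : ℤ) - (j : ℤ)) = ∑ r, star (Z r i) * Z r j := by
    intro i j
    have := congrFun (congrFun hZ i) j
    exact this
  have hherm : ∀ i j : Fin k, star (a ((i : ℤ) - (j : ℤ))) = a ((j : ℤ) - (i : ℤ)) := by
    intro i j
    rw [hZ', hZ', star_sum]
    exact Finset.sum_congr rfl fun r _ => by rw [star_mul, star_star]
  let a' : ℤ → C(OnePoint ℕ, ℂ) := fun l => if |l| < k then a l else 0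
  have ha' : ∀ l, a' (-l) = star (a' l) := by
    intro l
    simp only [a', abs_neg]
    split_ifs with h
    · rcases le_total 0 l with h0 | h0
      · obtain ⟨m, rfl⟩ := Int.eq_ofNat_of_zero_le h0
        have hm : m < k := by simpa using h
        have := hherm ⟨m, hm⟩ ⟨0, hk⟩
        simpa using this.symm
      · obtain ⟨m, hm'⟩ := Int.eq_ofNat_of_zero_le (neg_nonneg.2 h0)
        have hl : l = -(m : ℤ) := by omega
        subst hl
        have hm : m < k := by simpa using h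
        have := hherm ⟨0, hk⟩ ⟨m, hm⟩
        simpa using this.symm
    · rw [star_zero]
  have hpsd : ∀ x, (T (fun l => a' l x) k).PosSemidef := by
    intro x
    have h1 : T (fun l => a' l x) k =
        (Matrix.of fun i j : Fin k => Z i j x)ᴴ * (Matrix.of fun i j : Fin k => Z i j x) := by
      ext i j
      rw [T_apply, Matrix.mul_apply]
      have h2 : |(i : ℤ) - (j : ℤ)| < k := by
        have := i.2; have := j.2; rw [abs_lt]; omega
      simp only [a', if_pos h2, hZ', ContinuousMap.sum_apply]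
      exact Finset.sum_congr rfl fun r _ => rfl
    rw [h1]
    exact posSemidef_conjTranspose_mul_self _
  obtain ⟨y, -, hy2, hy3⟩ := all_steps a' ha' hk hpsd hkn.le
  refine ⟨y, ?_, ?_⟩
  · intro l hl
    have h1 : |l| < k := by omega
    rw [hy2 l h1]
    simp only [a', if_pos h1]
  · obtain ⟨W, hW⟩ := exists_factor (Matrix.of fun i j : Fin n => y ((i : ℤ) - (j : ℤ))) (by
      intro x
      exact hy3 x)
    exact ⟨CStarMatrix.ofMatrix W, hW⟩

/-- The function `t(n) = 1/(n+1)`, `t(∞) = 0`. -/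
noncomputable def tF : C(OnePoint ℕ, ℂ) :=
  OnePoint.continuousMapMkNat (fun n => ((1 / ((n : ℝ) + 1) : ℝ) : ℂ)) 0 (by
    have h := (Complex.continuous_ofReal.tendsto 0).comp
      (tendsto_one_div_add_atTop_nhds_zero_nat (𝕜 := ℝ))
    rw [Complex.ofReal_zero] at h
    exact h)

/-- The function `u(n) = (-1)^n/(n+1)`, `u(∞) = 0`. -/
noncomputable def uF : C(OnePoint ℕ, ℂ) :=
  OnePoint.continuousMapMkNat (fun n => (((-1) ^ n * (1 / ((n : ℝ) + 1)) : ℝ) : ℂ)) 0 (by
    have h0 : Tendsto (fun n : ℕ => (-1 : ℝ) ^ n * (1 / ((n : ℝ) + 1))) atTop (𝓝 0) := by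
      rw [tendsto_zero_iff_norm_tendsto_zero]
      have h1 := (tendsto_one_div_add_atTop_nhds_zero_nat (𝕜 := ℝ))
      refine h1.congr fun n => ?_
      have h2 : (0 : ℝ) < 1 / ((n : ℝ) + 1) := by positivity
      rw [norm_mul, norm_pow, norm_neg, norm_one, one_pow, one_mul, Real.norm_of_nonneg h2.le]
    have h := (Complex.continuous_ofReal.tendsto 0).comp h0
    rw [Complex.ofReal_zero] at h
    exact h)

theorem tF_coe (n : ℕ) : tF (n : OnePoint ℕ) = ((1 / ((n : ℝ) + 1) : ℝ) : ℂ) := rfl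

theorem uF_coe (n : ℕ) : uF (n : OnePoint ℕ) = (((-1) ^ n * (1 / ((n : ℝ) + 1)) : ℝ) : ℂ) := rfl

theorem star_tF : star tF = tF := by
  ext x
  induction x using OnePoint.rec with
  | infty => exact star_zero ℂ
  | coe n =>
    change star (tF (n : OnePoint ℕ)) = _
    rw [tF_coe, Complex.star_def, Complex.conj_ofReal]

theorem star_uF : star uF = uF := by
  ext x
  induction x using OnePoint.rec with
  | infty => exact star_zero ℂ
  | coe n =>
    change star (uF (n : OnePoint ℕ)) = _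
    rw [uF_coe, Complex.star_def, Complex.conj_ofReal]

theorem uF_mul : uF * uF = tF * tF := by
  ext x
  induction x using OnePoint.rec with
  | infty => rfl
  | coe n =>
    change uF (n : OnePoint ℕ) * uF (n : OnePoint ℕ) = tF (n : OnePoint ℕ) * tF (n : OnePoint ℕ)
    rw [tF_coe, uF_coe, ← Complex.ofReal_mul, ← Complex.ofReal_mul]
    congr 1
    have h : ((-1 : ℝ) ^ n) * (-1) ^ n = 1 := by rw [← mul_pow]; norm_num
    calc (-1 : ℝ) ^ n * (1 / ((n : ℝ) + 1)) * ((-1) ^ n * (1 / ((n : ℝ) + 1)))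
        = ((-1 : ℝ) ^ n * (-1) ^ n) * (1 / ((n : ℝ) + 1) * (1 / ((n : ℝ) + 1))) := by ring
      _ = _ := by rw [h, one_mul]

/-- The matrices of the counterexample (over any commutative star ring). -/
def mD {R : Type*} [CommRing R] (m : ℕ) (t : R) : Matrix (Fin (m + 2)) (Fin (m + 2)) R :=
  Matrix.single 0 0 1 + Matrix.single 1 1 (t * t)
def mK {R : Type*} [CommRing R] (m : ℕ) (t u : R) : Matrix (Fin (m + 2)) (Fin (m + 2)) R :=
  Matrix.single 0 1 t + Matrix.single 1 0 u
def mS {R : Type*} [CommRing R] (m : ℕ) (t : R) : Matrix (Fin (m + 2)) (Fin (m + 2)) R :=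
  Matrix.single 0 0 1 + Matrix.single 1 1 t
def mR {R : Type*} [CommRing R] (m : ℕ) (u : R) : Matrix (Fin (m + 2)) (Fin (m + 2)) R :=
  Matrix.single 0 1 u + Matrix.single 1 0 1

section algebra
variable {R : Type*} [CommRing R] [StarRing R] (m : ℕ) {t u : R}

theorem mS_mS (ht : star t = t) : (mS m t)ᴴ * mS m t = mD m t := by
  simp [mS, mD, Matrix.add_mul, Matrix.mul_add, Matrix.conjTranspose_single, ht]

theorem mS_mR (ht : star t = t) (hu : star u = u) : (mS m t)ᴴ * mR m u = (mK m t u)ᴴ := by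
  simp [mS, mR, mK, Matrix.add_mul, Matrix.mul_add, Matrix.conjTranspose_single, ht, hu, add_comm]

theorem mR_mS (ht : star t = t) (hu : star u = u) : (mR m u)ᴴ * mS m t = mK m t u := by
  simp [mS, mR, mK, Matrix.add_mul, Matrix.mul_add, Matrix.conjTranspose_single, ht, hu, add_comm]

theorem mR_mR (hu : star u = u) (h : u * u = t * t) : (mR m u)ᴴ * mR m u = mD m t := by
  simp [mR, mD, Matrix.add_mul, Matrix.mul_add, Matrix.conjTranspose_single, hu, h, add_comm]

end algebra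

theorem toeplitz_two (m : ℕ) (a : ℤ → CStarMatrix (Fin (m + 2)) (Fin (m + 2)) C(OnePoint ℕ, ℂ))
    (h0 : a 0 = CStarMatrix.ofMatrix (mD m tF)) (h1 : a 1 = CStarMatrix.ofMatrix (mK m tF uF))
    (h2 : a (-1) = CStarMatrix.ofMatrix ((mK m tF uF)ᴴ)) : IsPositive (toeplitz a 2) := by
  let z : Fin 2 → Fin 2 → Matrix (Fin (m + 2)) (Fin (m + 2)) C(OnePoint ℕ, ℂ) := fun i j =>
    if i = 0 then (if j = 0 then mS m tF else mR m uF) else 0
  refine ⟨CStarMatrix.ofMatrix (Matrix.of fun i j => CStarMatrix.ofMatrix (z i j)), ?_⟩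
  have key : ∀ i j : Fin 2, a ((i : ℤ) - (j : ℤ)) =
      CStarMatrix.ofMatrix (∑ r : Fin 2, (z r i)ᴴ * z r j) := by
    intro i j
    rw [Fin.sum_univ_two]
    have e1 : ∀ j, z 1 j = 0 := fun j => rfl
    rw [e1, e1, Matrix.mul_zero, add_zero]
    fin_cases i <;> fin_cases j
    · change a 0 = CStarMatrix.ofMatrix ((mS m tF)ᴴ * mS m tF)
      rw [mS_mS m star_tF, h0]
    · change a (-1) = CStarMatrix.ofMatrix ((mS m tF)ᴴ * mR m uF)
      rw [mS_mR m star_tF star_uF, h2]
    · change a 1 = CStarMatrix.ofMatrix ((mR m uF)ᴴ * mS m tF)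
      rw [mR_mS m star_tF star_uF, h1]
    · change a 0 = CStarMatrix.ofMatrix ((mR m uF)ᴴ * mR m uF)
      rw [mR_mR m star_uF uF_mul, h0]
  refine CStarMatrix.ext fun i j => ?_
  exact key i j

/-- The matrix of values at a point. -/
noncomputable def ev {m : ℕ} (x : OnePoint ℕ) (W : CStarMatrix (Fin (m + 2)) (Fin (m + 2)) C(OnePoint ℕ, ℂ)) :
    Matrix (Fin (m + 2)) (Fin (m + 2)) ℂ := Matrix.of fun i j => W i j x

/-- At the point `n` the corner entry of the completion is `(-1)^n`. -/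
theorem corner (m : ℕ) (y : ℤ → CStarMatrix (Fin (m + 2)) (Fin (m + 2)) C(OnePoint ℕ, ℂ))
    (h0 : y 0 = CStarMatrix.ofMatrix (mD m tF)) (h1 : y 1 = CStarMatrix.ofMatrix (mK m tF uF))
    (h2 : y (-1) = CStarMatrix.ofMatrix ((mK m tF uF)ᴴ)) (hy : IsPositive (toeplitz y 3)) (n : ℕ) :
    (y 2) 0 0 (n : OnePoint ℕ) = (-1) ^ n := by
  obtain ⟨Z, hZ⟩ := hy
  set x : OnePoint ℕ := (n : OnePoint ℕ) with hx
  set t : ℂ := tF x with ht
  set u : ℂ := uF x with hu
  have htr : t = ((1 / ((n : ℝ) + 1) : ℝ) : ℂ) := tF_coe n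
  have hur : u = (((-1) ^ n * (1 / ((n : ℝ) + 1)) : ℝ) : ℂ) := uF_coe n
  have ht0 : t ≠ 0 := by
    rw [htr]
    have : (0 : ℝ) < 1 / ((n : ℝ) + 1) := by positivity
    exact_mod_cast this.ne'
  have hst : star t = t := by rw [htr, Complex.star_def, Complex.conj_ofReal]
  have hsu : star u = u := by rw [hur, Complex.star_def, Complex.conj_ofReal]
  have huu : u * u = t * t := by
    have := congrArg (fun f : C(OnePoint ℕ, ℂ) => f x) uF_mul
    exact this
  let W : Fin 3 → Fin 3 → Matrix (Fin (m + 2)) (Fin (m + 2)) ℂ := fun i j => ev x (Z i j)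
  have hW : ∀ i j : Fin 3, ev x (y ((i : ℤ) - (j : ℤ))) = ∑ r : Fin 3, (W r i)ᴴ * W r j := by
    intro i j
    have h3 : y ((i : ℤ) - (j : ℤ)) = ∑ r : Fin 3, star (Z r i) * Z r j :=
      congrFun (congrFun hZ i) j
    rw [h3]
    ext p q
    rw [Matrix.sum_apply]
    simp only [ev, Matrix.of_apply]
    have h4 : (∑ r : Fin 3, star (Z r i) * Z r j) p q =
        ∑ r : Fin 3, ∑ s, star (Z r i s p) * Z r j s q := by
      have h5 : ∀ (F : Fin 3 → CStarMatrix (Fin (m + 2)) (Fin (m + 2)) C(OnePoint ℕ, ℂ)),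
          (∑ r : Fin 3, F r) p q = ∑ r : Fin 3, F r p q := by
        intro F
        rw [Fin.sum_univ_three, Fin.sum_univ_three]
        rfl
      rw [h5]
      rfl
    rw [h4, ContinuousMap.sum_apply]
    refine Finset.sum_congr rfl fun r _ => ?_
    rw [ContinuousMap.sum_apply, Matrix.mul_apply]
    rfl
  have e0 : ev x (y 0) = mD m t := by
    rw [h0]
    refine Matrix.ext fun p q => ?_
    change (mD m tF p q) x = mD m t p q
    simp only [mD, Matrix.add_apply, Matrix.single_apply, ContinuousMap.add_apply]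
    split_ifs <;> rfl
  have e1 : ev x (y 1) = mK m t u := by
    rw [h1]
    refine Matrix.ext fun p q => ?_
    change (mK m tF uF p q) x = mK m t u p q
    simp only [mK, Matrix.add_apply, Matrix.single_apply, ContinuousMap.add_apply]
    split_ifs <;> rfl
  have e2 : ev x (y (-1)) = (mK m t u)ᴴ := by
    rw [h2]
    refine Matrix.ext fun p q => ?_
    change star ((mK m tF uF q p) x) = star (mK m t u q p)
    congr 1
    simp only [mK, Matrix.add_apply, Matrix.single_apply, ContinuousMap.add_apply]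
    split_ifs <;> rfl
  -- the relations between the columns
  have r00 : ∑ r : Fin 3, (W r 0)ᴴ * W r 0 = mD m t := by rw [← hW 0 0, ← e0]; rfl
  have r01 : ∑ r : Fin 3, (W r 0)ᴴ * W r 1 = (mK m t u)ᴴ := by rw [← hW 0 1, ← e2]; rfl
  have r10 : ∑ r : Fin 3, (W r 1)ᴴ * W r 0 = mK m t u := by rw [← hW 1 0, ← e1]; rfl
  have r11 : ∑ r : Fin 3, (W r 1)ᴴ * W r 1 = mD m t := by rw [← hW 1 1, ← e0]; rfl
  have r20 : ∑ r : Fin 3, (W r 2)ᴴ * W r 0 = ev x (y 2) := by rw [← hW 2 0]; rfl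
  have r21 : ∑ r : Fin 3, (W r 2)ᴴ * W r 1 = mK m t u := by rw [← hW 2 1, ← e1]; rfl
  let c : ℂ := u / (t * t)
  let v0 : Matrix (Fin (m + 2)) (Fin (m + 2)) ℂ := Matrix.single 0 0 1
  let v1 : Matrix (Fin (m + 2)) (Fin (m + 2)) ℂ := Matrix.single 1 0 (-c)
  have huc : u * c = 1 := by
    simp only [c]
    rw [← mul_div_assoc, huu, div_self (mul_ne_zero ht0 ht0)]
  have htc : t * t * c = u := by
    simp only [c]
    field_simp
  have k0 : mD m t * v0 + (mK m t u)ᴴ * v1 = 0 := by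
    simp only [mD, mK, v0, v1, conjTranspose_add, conjTranspose_single, hst, hsu, Matrix.add_mul]
    simp [mul_neg, huc, ← Matrix.single_add]
  have k1 : mK m t u * v0 + mD m t * v1 = 0 := by
    simp only [mD, mK, v0, v1, Matrix.add_mul]
    simp [mul_neg, htc, ← Matrix.single_add]
  let w : Fin 3 → Matrix (Fin (m + 2)) (Fin (m + 2)) ℂ := fun r => W r 0 * v0 + W r 1 * v1
  have hw : ∀ j : Fin 3, ∑ r : Fin 3, (W r j)ᴴ * w r =
      (∑ r : Fin 3, (W r j)ᴴ * W r 0) * v0 + (∑ r : Fin 3, (W r j)ᴴ * W r 1) * v1 := by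
    intro j
    rw [Finset.sum_mul, Finset.sum_mul, ← Finset.sum_add_distrib]
    refine Finset.sum_congr rfl fun r _ => ?_
    simp only [w]
    rw [Matrix.mul_add, Matrix.mul_assoc, Matrix.mul_assoc]
  have hw0 : ∑ r : Fin 3, (W r 0)ᴴ * w r = 0 := by rw [hw, r00, r01, k0]
  have hw1 : ∑ r : Fin 3, (W r 1)ᴴ * w r = 0 := by rw [hw, r10, r11, k1]
  have hww : ∑ r : Fin 3, (w r)ᴴ * w r = 0 := by
    have h3 : ∀ r, (w r)ᴴ * w r = v0ᴴ * ((W r 0)ᴴ * w r) + v1ᴴ * ((W r 1)ᴴ * w r) := by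
      intro r
      conv_lhs => rw [show (w r)ᴴ = v0ᴴ * (W r 0)ᴴ + v1ᴴ * (W r 1)ᴴ by
        simp only [w, conjTranspose_add, conjTranspose_mul]]
      rw [Matrix.add_mul, Matrix.mul_assoc, Matrix.mul_assoc]
    rw [Finset.sum_congr rfl fun r _ => h3 r, Finset.sum_add_distrib, ← Finset.mul_sum,
      ← Finset.mul_sum, hw0, hw1, Matrix.mul_zero, Matrix.mul_zero, add_zero]
  have hwz : ∀ r, w r = 0 := by
    intro r
    rw [← Matrix.trace_conjTranspose_mul_self_eq_zero_iff]
    have h3 : ∑ r : Fin 3, Matrix.trace ((w r)ᴴ * w r) = 0 := by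
      rw [← Matrix.trace_sum, hww, Matrix.trace_zero]
    have h4 : ∀ r ∈ (Finset.univ : Finset (Fin 3)), 0 ≤ Matrix.trace ((w r)ᴴ * w r) :=
      fun r _ => (posSemidef_conjTranspose_mul_self (w r)).trace_nonneg
    exact (Finset.sum_eq_zero_iff_of_nonneg h4).1 h3 r (Finset.mem_univ r)
  have h3 := hw 2
  rw [r20, r21] at h3
  have h4 : ∑ r : Fin 3, (W r 2)ᴴ * w r = 0 :=
    Finset.sum_eq_zero fun r _ => by rw [hwz, Matrix.mul_zero]
  rw [h4] at h3
  have h5 := congrFun (congrFun h3 0) 0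
  rw [Matrix.add_apply, Matrix.zero_apply] at h5
  have h6 : (ev x (y 2) * v0) 0 0 = ev x (y 2) 0 0 := by
    simp [v0, Matrix.mul_apply, Matrix.single_apply]
  have h7 : (mK m t u * v1) 0 0 = -(t * c) := by
    simp [mK, v1, Matrix.add_mul]
  rw [h6, h7] at h5
  have h8 : ev x (y 2) 0 0 = t * c := by linear_combination -h5
  change ev x (y 2) 0 0 = _
  rw [h8]
  have h9 : t * c = u / t := by
    simp only [c]; field_simp
  rw [h9, hur, htr, ← Complex.ofReal_div]
  have h10 : ((-1 : ℝ) ^ n * (1 / ((n : ℝ) + 1))) / (1 / ((n : ℝ) + 1)) = (-1) ^ n := by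
    have : (0 : ℝ) < 1 / ((n : ℝ) + 1) := by positivity
    rw [mul_div_assoc, div_self this.ne', mul_one]
  rw [h10]
  push_cast; ring

theorem not_ptc (m : ℕ) : ¬ PTC (CStarMatrix (Fin (m + 2)) (Fin (m + 2)) C(OnePoint ℕ, ℂ)) := by
  intro hP
  let a : ℤ → CStarMatrix (Fin (m + 2)) (Fin (m + 2)) C(OnePoint ℕ, ℂ) := fun l =>
    if l = 0 then CStarMatrix.ofMatrix (mD m tF) else
    if l = 1 then CStarMatrix.ofMatrix (mK m tF uF) else
    if l = -1 then CStarMatrix.ofMatrix ((mK m tF uF)ᴴ) else 0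
  have ha0 : a 0 = CStarMatrix.ofMatrix (mD m tF) := rfl
  have ha1 : a 1 = CStarMatrix.ofMatrix (mK m tF uF) := rfl
  have ha2 : a (-1) = CStarMatrix.ofMatrix ((mK m tF uF)ᴴ) := rfl
  obtain ⟨y, hy1, hy⟩ := hP 2 3 (by norm_num) (by norm_num) a (toeplitz_two m a ha0 ha1 ha2)
  have hc := corner m y ((hy1 0 (by norm_num)).trans ha0) ((hy1 1 (by norm_num)).trans ha1)
    ((hy1 (-1) (by norm_num)).trans ha2) hy
  have hcont := (OnePoint.continuous_iff_from_nat _).1 ((y 2) 0 0).continuous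
  have hcont' : Tendsto (fun n : ℕ => (-1 : ℂ) ^ n) atTop (𝓝 (((y 2) 0 0) OnePoint.infty)) :=
    hcont.congr hc
  have hm : Tendsto (fun n : ℕ => 2 * n) atTop atTop :=
    tendsto_atTop_mono (fun n => by simp only [id]; omega) tendsto_id
  have hm' : Tendsto (fun n : ℕ => 2 * n + 1) atTop atTop :=
    tendsto_atTop_mono (fun n => by simp only [id]; omega) tendsto_id
  have h1 : (((y 2) 0 0) OnePoint.infty : ℂ) = 1 := by
    refine tendsto_nhds_unique (hcont'.comp hm) (tendsto_const_nhds.congr fun n => ?_)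
    simp [pow_mul]
  have h2 : (((y 2) 0 0) OnePoint.infty : ℂ) = -1 := by
    refine tendsto_nhds_unique (hcont'.comp hm') (tendsto_const_nhds.congr fun n => ?_)
    simp [pow_succ, pow_mul]
  rw [h1] at h2
  norm_num at h2

/-- **Q1 is false.** There is a commutative unital C*-algebra `A` (the algebra of convergent
sequences) in the class `PTC` such that `M^{m×m}(A)` is not in `PTC` for every `m ≥ 2`. -/
theorem result : ∃ (A : Type) (_ : CommCStarAlgebra A), PTC A ∧
    ∀ m : ℕ, 2 ≤ m → ¬ PTC (CStarMatrix (Fin m) (Fin m) A) := by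
  refine ⟨C(OnePoint ℕ, ℂ), inferInstance, ptc_commutative, ?_⟩
  intro m hm
  obtain ⟨m, rfl⟩ : ∃ k, m = k + 2 := ⟨m - 2, by omega⟩
  exact not_ptc m

end Pool.Agent.Results.MP_a15892_an.AmplificationFails
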